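import Mathlib
import Pool.Agent.Helper86.AP.Goals

/-!
# Project AP (MP_bec853_al): packet CJ2
-/

set_option autoImplicit false

namespace Pool.Agent.Helper83.AP

open FreeGroup Pool.Agent.Helper35.PP Pool.Agent.Helper86.AP

theorem card_step {β : Type} [Fintype β] (G : Set (List β)) (hG : G.Finite)
    (Q : β → List β → Prop) (d : ℕ) (hd : ∀ g ∈ G, {x | Q x g}.ncard = d) :
    {l | ∃ x g, l = x :: g ∧ g ∈ G ∧ Q x g}.ncard = G.ncard * d := by
  classical
  have h1 : {l | ∃ x g, l = x :: g ∧ g ∈ G ∧ Q x g} =
      ((((hG.toFinset).sigma fun g => Finset.univ.filter fun x => Q x g).map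
        ⟨fun p : (Σ _ : List β, β) => p.2 :: p.1, fun p q h => by
          rcases p with ⟨p1, p2⟩
          rcases q with ⟨q1, q2⟩
          simp only [List.cons.injEq] at h
          rw [h.1, h.2]⟩ : Finset (List β)) : Set (List β)) := by
    ext l
    simp only [Set.mem_ofPred_eq, Finset.coe_map, Function.Embedding.coeFn_mk, Set.mem_image,
      Finset.mem_coe, Finset.mem_sigma, Set.Finite.mem_toFinset, Finset.mem_filter,
      Finset.mem_univ, true_and]
    constructor
    · rintro ⟨x, g, rfl, hg, hq⟩
      exact ⟨⟨g, x⟩, ⟨hg, hq⟩, rfl⟩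
    · rintro ⟨⟨g, x⟩, ⟨hg, hq⟩, rfl⟩
      exact ⟨x, g, rfl, hg, hq⟩
  rw [h1, Set.ncard_coe_finset, Finset.card_map, Finset.card_sigma]
  rw [Finset.sum_congr rfl (g := fun _ => d)]
  · rw [Finset.sum_const, smul_eq_mul, ← Set.ncard_eq_toFinset_card G hG]
  · intro g hg
    rw [← hd g (hG.mem_toFinset.1 hg), ← Set.ncard_coe_finset]
    congr 1
    ext x
    simp

section

variable {α : Type}

theorem invRev_cons (x : α × Bool) (g : List (α × Bool)) :
    FreeGroup.invRev (x :: g) = FreeGroup.invRev g ++ [nv x] := by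
  simp [FreeGroup.invRev, nv]

/-- Adding one letter on both sides. -/
theorem step_iff (x : α × Bool) (w : List (α × Bool)) :
    FreeGroup.IsReduced (x :: (w ++ [nv x])) ↔ FreeGroup.IsReduced w ∧
      (∀ y ∈ w.head?, y ≠ nv x) ∧ (∀ y ∈ w.getLast?, y ≠ x) ∧ (w = [] → False) := by
  unfold FreeGroup.IsReduced
  rw [List.isChain_cons, List.isChain_append]
  rcases w with _ | ⟨a, w⟩
  · simp [nv]
  · simp only [List.cons_append, List.head?_cons, Option.mem_def, Option.some.injEq,
      forall_eq', List.isChain_singleton, true_and, reduceCtorEq, IsEmpty.forall_iff, and_true]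
    have h1 : (x.1 = a.1 → x.2 = a.2) ↔ a ≠ nv x := by
      rcases x with ⟨x1, x2⟩
      rcases a with ⟨a1, a2⟩
      simp only [nv, ne_eq, Prod.mk.injEq, not_and]
      constructor
      · intro h h2 h3
        have := h h2.symm
        rw [h3] at this
        cases x2 <;> simp at this
      · intro h h2
        have := h h2.symm
        revert this
        cases x2 <;> cases a2 <;> simp
    have h2 : ∀ y : α × Bool, (y.1 = (nv x).1 → y.2 = (nv x).2) ↔ y ≠ x := by
      intro y
      rcases x with ⟨x1, x2⟩
      rcases y with ⟨a1, a2⟩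
      simp only [nv, ne_eq, Prod.mk.injEq, not_and]
      constructor
      · intro h h2 h3
        have := h h2
        rw [h3] at this
        cases x2 <;> simp at this
      · intro h h2
        have := h h2
        revert this
        cases x2 <;> cases a2 <;> simp
    rw [h1]
    simp only [h2]
    constructor
    · rintro ⟨h3, h4, h5⟩
      exact ⟨h4, h3, h5⟩
    · rintro ⟨h4, h3, h5⟩
      exact ⟨h3, h4, h5⟩

theorem head_last (g c : List (α × Bool)) (x : α × Bool) :
    ((x :: g) ++ c ++ FreeGroup.invRev (x :: g)).head? = some x ∧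
      ((x :: g) ++ c ++ FreeGroup.invRev (x :: g)).getLast? = some (nv x) := by
  rw [invRev_cons]
  constructor
  · simp
  · rw [← List.append_assoc]
    exact List.getLast?_concat

end

/-- The conjugators of length `k`. -/
def Ak {α : Type} (c : List (α × Bool)) (k : ℕ) : Set (List (α × Bool)) :=
  {g | g.length = k ∧ FreeGroup.IsReduced (g ++ c ++ FreeGroup.invRev g)}

/-- The admissible letters. -/
def Qx {α : Type} (c : List (α × Bool)) (x : α × Bool) (g : List (α × Bool)) : Prop :=
  (∀ y ∈ (g ++ c ++ FreeGroup.invRev g).head?, y ≠ nv x) ∧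
    (∀ y ∈ (g ++ c ++ FreeGroup.invRev g).getLast?, y ≠ x)

theorem Ak_succ {α : Type} (c : List (α × Bool)) (hne : c ≠ []) (k : ℕ) :
    Ak c (k + 1) = {l | ∃ x g, l = x :: g ∧ g ∈ Ak c k ∧ Qx c x g} := by
  ext l
  unfold Ak Qx
  simp only [Set.mem_ofPred_eq]
  have key : ∀ (x : α × Bool) (g : List (α × Bool)),
      (x :: g) ++ c ++ FreeGroup.invRev (x :: g) =
        x :: ((g ++ c ++ FreeGroup.invRev g) ++ [nv x]) := by
    intro x g
    rw [invRev_cons]
    simp
  constructor
  · rintro ⟨h1, h2⟩
    rcases l with _ | ⟨x, g⟩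
    · simp at h1
    · rw [key, step_iff] at h2
      exact ⟨x, g, rfl, ⟨by simpa using h1, h2.1⟩, h2.2.1, h2.2.2.1⟩
  · rintro ⟨x, g, rfl, ⟨h1, h2⟩, h3, h4⟩
    refine ⟨by simp [h1], ?_⟩
    rw [key, step_iff]
    exact ⟨h2, h3, h4, fun h => hne (by
      rw [List.append_eq_nil_iff, List.append_eq_nil_iff] at h
      exact h.1.2)⟩

theorem card_one {α : Type} [Fintype α] [DecidableEq α] (y : α × Bool) :
    {x : α × Bool | y ≠ nv x ∧ nv y ≠ x}.ncard = 2 * Fintype.card α - 1 := by
  have h1 : {x : α × Bool | y ≠ nv x ∧ nv y ≠ x} =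
      ((Finset.univ.erase (nv y) : Finset (α × Bool)) : Set (α × Bool)) := by
    ext x
    simp only [Set.mem_ofPred_eq, Finset.coe_erase, Finset.coe_univ, Set.mem_sdiff, Set.mem_univ,
      Set.mem_singleton_iff, true_and]
    constructor
    · rintro ⟨-, h⟩ rfl
      exact h rfl
    · intro h
      exact ⟨fun h2 => h (by rw [h2, nv_nv]), fun h2 => h h2.symm⟩
  rw [h1, Set.ncard_coe_finset, Finset.card_erase_of_mem (Finset.mem_univ _), Finset.card_univ,
    Fintype.card_prod, Fintype.card_bool, mul_comm]

theorem card_two {α : Type} [Fintype α] [DecidableEq α] (y z : α × Bool) (h : nv y ≠ z) :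
    {x : α × Bool | y ≠ nv x ∧ z ≠ x}.ncard = 2 * Fintype.card α - 2 := by
  have h1 : {x : α × Bool | y ≠ nv x ∧ z ≠ x} =
      (((Finset.univ.erase (nv y)).erase z : Finset (α × Bool)) : Set (α × Bool)) := by
    ext x
    simp only [Set.mem_ofPred_eq, Finset.coe_erase, Finset.coe_univ, Set.mem_sdiff, Set.mem_univ,
      Set.mem_singleton_iff, true_and]
    constructor
    · rintro ⟨h2, h3⟩
      exact ⟨fun h4 => h2 (by rw [h4, nv_nv]), fun h4 => h3 h4.symm⟩
    · rintro ⟨h2, h3⟩
      exact ⟨fun h4 => h2 (by rw [h4, nv_nv]), fun h4 => h3 h4.symm⟩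
  rw [h1, Set.ncard_coe_finset, Finset.card_erase_of_mem
    (Finset.mem_erase.2 ⟨h.symm, Finset.mem_univ _⟩),
    Finset.card_erase_of_mem (Finset.mem_univ _), Finset.card_univ,
    Fintype.card_prod, Fintype.card_bool, mul_comm]
  omega

theorem tCJ2 : S_CJ2 := by
  intro α _ _ c k hr hc hne
  have hfin : ∀ k, (Ak c k).Finite := fun k =>
    (List.finite_length_eq (α × Bool) k).subset fun g hg => hg.1
  show (Ak c (k + 1)).ncard = _
  induction k with
  | zero =>
    rw [Ak_succ c hne 0, card_step (Ak c 0) (hfin 0) (Qx c) (2 * Fintype.card α - 2)]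
    · have h0 : Ak c 0 = {[]} := by
        ext g
        constructor
        · rintro ⟨h1, -⟩
          exact List.length_eq_zero_iff.1 h1
        · rintro rfl
          refine ⟨rfl, ?_⟩
          simpa [FreeGroup.invRev] using hc.1
      rw [h0, Set.ncard_singleton]
      simp
    · intro g hg
      have hg0 : g = [] := List.length_eq_zero_iff.1 hg.1
      subst hg0
      have hh : c.head? = some (c.head hne) := List.head?_eq_some_head hne
      have hl : c.getLast? = some (c.getLast hne) := List.getLast?_eq_some_getLast hne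
      have h1 : {x | Qx c x []} = {x | c.head hne ≠ nv x ∧ c.getLast hne ≠ x} := by
        ext x
        unfold Qx
        have : ([] : List (α × Bool)) ++ c ++ FreeGroup.invRev [] = c := by
          simp [FreeGroup.invRev]
        simp only [Set.mem_ofPred_eq, this, hh, hl, Option.mem_def, Option.some.injEq,
          forall_eq']
      rw [h1]
      apply card_two
      intro h2
      have h3 := hc.2 _ hl _ hh
      rw [← h2] at h3
      have h4 := h3 rfl
      revert h4
      simp [nv]
  | succ k ih =>
    rw [Ak_succ c hne (k + 1), card_step (Ak c (k + 1)) (hfin _) (Qx c)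
      (2 * Fintype.card α - 1), ih, pow_succ, mul_assoc]
    intro g hg
    rcases g with _ | ⟨y, g⟩
    · exact absurd hg.1 (by simp)
    · have h1 : {x | Qx c x (y :: g)} = {x | y ≠ nv x ∧ nv y ≠ x} := by
        ext x
        unfold Qx
        simp only [Set.mem_ofPred_eq, (head_last g c y).1, (head_last g c y).2, Option.mem_def,
          Option.some.injEq, forall_eq']
      rw [h1]
      exact card_one y

end Pool.Agent.Helper83.AP
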